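import Mathlib

set_option autoImplicit false

open Set Topology Filter

namespace Pool.Agent.H33Z.Darji

/-- order automorphisms of the rationals -/
abbrev Aut : Type := ℚ ≃o ℚ

/-- the stretch map: identity up to `a`, slope `c` after `a` -/
def strFun (a c : ℚ) (s : ℚ) : ℚ := if s ≤ a then s else a + c * (s - a)

lemma strFun_strictMono (a c : ℚ) (hc : 0 < c) : StrictMono (strFun a c) := by
  intro s t hst
  unfold strFun
  split_ifs with h1 h2 h2
  · exact hst
  · push Not at h2
    have : 0 < c * (t - a) := mul_pos hc (by linarith)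
    linarith
  · push Not at h1
    linarith
  · have : c * (s - a) < c * (t - a) := mul_lt_mul_of_pos_left (by linarith) hc
    linarith

lemma strFun_surj (a c : ℚ) (hc : 0 < c) : Function.Surjective (strFun a c) := by
  intro t
  by_cases h : t ≤ a
  · exact ⟨t, by simp [strFun, h]⟩
  · push Not at h
    refine ⟨a + (t - a) / c, ?_⟩
    have h1 : 0 < (t - a) / c := div_pos (by linarith) hc
    have h2 : ¬ (a + (t - a) / c ≤ a) := by linarith
    simp only [strFun, h2, if_false]
    field_simp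
    ring

noncomputable def str (a : ℚ) (c : {c : ℚ // 0 < c}) : Aut :=
  (strFun_strictMono a c.1 c.2).orderIsoOfSurjective _ (strFun_surj a c.1 c.2)

lemma str_apply (a : ℚ) (c : {c : ℚ // 0 < c}) (s : ℚ) : str a c s = strFun a c.1 s := rfl

/-- the countable group generated by the stretch maps -/
noncomputable def H : Subgroup Aut :=
  (FreeGroup.lift (fun p : ℚ × {c : ℚ // 0 < c} => str p.1 p.2)).range

lemma H_countable : (H : Set Aut).Countable := by
  unfold H
  rw [MonoidHom.coe_range]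
  exact Set.countable_range _

lemma str_mem_H (a : ℚ) (c : {c : ℚ // 0 < c}) : str a c ∈ H :=
  ⟨FreeGroup.of (a, c), by simp⟩

/-- agreement of two maps on the half line up to `r` -/
def Agree (r : ℚ) (f g : Aut) : Prop := ∀ s, s ≤ r → f s = g s

lemma Agree.inv {r : ℚ} {f g : Aut} (h : Agree r f g) : Agree (g r) f⁻¹ g⁻¹ := by
  intro s hs
  have h1 : g⁻¹ s ≤ r := by
    have := (g⁻¹ : Aut).monotone hs
    simpa using this
  have h2 : f (g⁻¹ s) = s := by rw [h _ h1]; simp
  have h3 : f⁻¹ (f (g⁻¹ s)) = g⁻¹ s := by simp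
  rw [h2] at h3
  exact h3

lemma Agree.mono {r r' : ℚ} {f g : Aut} (h : Agree r f g) (hr : r' ≤ r) : Agree r' f g :=
  fun s hs => h s (hs.trans hr)

lemma Agree.refl (r : ℚ) (f : Aut) : Agree r f f := fun _ _ => rfl

lemma Agree.symm {r : ℚ} {f g : Aut} (h : Agree r f g) : Agree r g f :=
  fun s hs => (h s hs).symm

lemma Agree.trans {r : ℚ} {f g k : Aut} (h : Agree r f g) (h' : Agree r g k) : Agree r f k :=
  fun s hs => (h s hs).trans (h' s hs)

lemma Agree.mul {r : ℚ} {f g f' g' : Aut} (h : Agree (g' r) f f') (h' : Agree r g g') :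
    Agree r (f * g) (f' * g') := by
  intro s hs
  show f (g s) = f' (g' s)
  rw [h' s hs]
  exact h _ (g'.monotone hs)

/-- the maps that agree with a member of `H` on every half line -/
noncomputable def G : Subgroup Aut where
  carrier := {f | ∀ r : ℚ, ∃ h ∈ H, Agree r f h}
  one_mem' := fun r => ⟨1, H.one_mem, Agree.refl _ _⟩
  mul_mem' := by
    intro f g hf hg r
    obtain ⟨h2, hh2, e2⟩ := hg r
    obtain ⟨h1, hh1, e1⟩ := hf (h2 r)
    exact ⟨h1 * h2, H.mul_mem hh1 hh2, e1.mul e2⟩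
  inv_mem' := by
    intro f hf r
    obtain ⟨h, hh, e⟩ := hf (f⁻¹ r)
    refine ⟨h⁻¹, H.inv_mem hh, ?_⟩
    have := e.symm.inv
    simpa using this.symm

lemma H_le_G {f : Aut} (hf : f ∈ H) : f ∈ G := fun _ => ⟨f, hf, Agree.refl _ _⟩

/-- the carrier of the Polish group -/
def PG : Type := G

noncomputable instance : Group PG := inferInstanceAs (Group G)

/-- underlying automorphism -/
def PG.val (f : PG) : Aut := Subtype.val f

lemma PG.mem (f : PG) : f.val ∈ G := Subtype.property f

@[simp] lemma PG.val_mul (f g : PG) : (f * g).val = f.val * g.val := rfl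
@[simp] lemma PG.val_inv (f : PG) : (f⁻¹).val = f.val⁻¹ := rfl
@[simp] lemma PG.val_one : (1 : PG).val = 1 := rfl

lemma PG.ext {f g : PG} (h : f.val = g.val) : f = g := Subtype.ext h

/-- truncation -/
def trunc (n : ℕ) (f : Aut) : ℚ → ℚ := fun s => f (min s n)

lemma trunc_eq_iff {n : ℕ} {f g : Aut} : trunc n f = trunc n g ↔ Agree n f g := by
  constructor
  · intro h s hs
    have := congrFun h s
    simpa [trunc, min_eq_left hs] using this
  · intro h
    funext s
    exact h _ (min_le_right _ _)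

/-- the countable set of truncations -/
def D : Type := {φ : ℚ → ℚ // ∃ n : ℕ, ∃ h ∈ H, φ = trunc n h}

instance : Countable D := by
  have h1 : ({φ : ℚ → ℚ | ∃ n : ℕ, ∃ h ∈ H, φ = trunc n h}).Countable := by
    have : {φ : ℚ → ℚ | ∃ n : ℕ, ∃ h ∈ H, φ = trunc n h} =
        ⋃ n : ℕ, (trunc n) '' (H : Set Aut) := by
      ext φ
      simp only [mem_ofPred_eq, mem_iUnion, mem_image, SetLike.mem_coe]
      constructor
      · rintro ⟨n, h, hh, rfl⟩
        exact ⟨n, h, hh, rfl⟩
      · rintro ⟨n, h, hh, rfl⟩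
        exact ⟨n, h, hh, rfl⟩
    rw [this]
    exact countable_iUnion fun n => H_countable.image _
  exact h1.to_subtype

instance : TopologicalSpace D := ⊥
instance : DiscreteTopology D := ⟨rfl⟩
instance : PolishSpace D := inferInstance

/-- truncation as a point of `D` -/
def tr (n : ℕ) (f : PG) : D :=
  ⟨trunc n f.val, by
    obtain ⟨h, hh, e⟩ := f.mem n
    exact ⟨n, h, hh, trunc_eq_iff.2 e⟩⟩

lemma tr_eq_iff {n : ℕ} {f g : PG} : tr n f = tr n g ↔ Agree n f.val g.val := by
  rw [← trunc_eq_iff]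
  exact Subtype.ext_iff

/-- the coding map -/
noncomputable def Phi (f : PG) : ℕ → D × D := fun n => (tr n f, tr n f⁻¹)

noncomputable instance : TopologicalSpace PG := TopologicalSpace.induced Phi inferInstance

lemma Phi_inducing : IsInducing Phi := ⟨rfl⟩

lemma isOpen_agree_nat (n : ℕ) (f : PG) : IsOpen {g : PG | Agree n g.val f.val} := by
  have hc : Continuous (fun g : PG => (Phi g n).1) :=
    continuous_fst.comp ((continuous_apply n).comp Phi_inducing.continuous)
  have : {g : PG | Agree n g.val f.val} = (fun g : PG => (Phi g n).1) ⁻¹' {tr n f} := by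
    ext g
    simp only [mem_ofPred_eq, mem_preimage, mem_singleton_iff, Phi]
    exact tr_eq_iff.symm
  rw [this]
  exact (isOpen_discrete _).preimage hc

lemma agree_mem_nhds (r : ℚ) (f : PG) : {g : PG | Agree r g.val f.val} ∈ 𝓝 f := by
  obtain ⟨n, hn⟩ := exists_nat_ge r
  exact mem_of_superset ((isOpen_agree_nat n f).mem_nhds (Agree.refl _ _))
    (fun g hg => Agree.mono hg hn)

lemma mem_nhds_iff_agree {f : PG} {U : Set PG} :
    U ∈ 𝓝 f ↔ ∃ r : ℚ, ∀ g : PG, Agree r g.val f.val → g ∈ U := by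
  constructor
  · intro hU
    rw [Phi_inducing.nhds_eq_comap, mem_comap] at hU
    obtain ⟨W, hW, hWU⟩ := hU
    rw [nhds_pi, Filter.mem_pi] at hW
    obtain ⟨I, hI, t, ht, hsub⟩ := hW
    obtain ⟨N, hN⟩ := hI.bddAbove
    refine ⟨max (N : ℚ) (f.val⁻¹ N), fun g hg => hWU (hsub ?_)⟩
    intro i hi
    have hiN : (i : ℚ) ≤ N := by exact_mod_cast hN hi
    have e : Phi g i = Phi f i := by
      refine Prod.ext (tr_eq_iff.2 ?_) (tr_eq_iff.2 ?_)
      · exact hg.mono (hiN.trans (le_max_left _ _))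
      · have h1 := (hg.mono (le_max_right _ _)).inv
        simp only [RelIso.apply_inv_self] at h1
        exact h1.mono hiN
    rw [e]
    exact mem_of_mem_nhds (ht i)
  · rintro ⟨r, hr⟩
    exact mem_of_superset (agree_mem_nhds r f) hr

instance : IsTopologicalGroup PG where
  continuous_mul := by
    rw [continuous_iff_continuousAt]
    rintro ⟨f, g⟩ U hU
    obtain ⟨r, hr⟩ := mem_nhds_iff_agree.1 hU
    rw [mem_map, nhds_prod_eq]
    refine mem_of_superset (prod_mem_prod (agree_mem_nhds (g.val r) f) (agree_mem_nhds r g)) ?_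
    rintro ⟨f', g'⟩ ⟨h1, h2⟩
    exact hr _ (Agree.mul h1 h2)
  continuous_inv := by
    rw [continuous_iff_continuousAt]
    intro f U hU
    obtain ⟨r, hr⟩ := mem_nhds_iff_agree.1 hU
    rw [mem_map]
    refine mem_of_superset (agree_mem_nhds (f.val⁻¹ r) f) ?_
    intro g hg
    apply hr
    have := Agree.inv hg
    simpa using this

lemma Phi_injective : Function.Injective Phi := by
  intro f g h
  apply PG.ext
  ext s
  obtain ⟨n, hn⟩ := exists_nat_ge s
  have := congrArg Prod.fst (congrFun h n)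
  exact tr_eq_iff.1 this s hn

lemma isClosed_range_Phi : IsClosed (range Phi) := by
  apply isClosed_of_closure_subset
  intro ψ hψ
  have key : ∀ n : ℕ, ∃ f : PG, ∀ k ≤ n, Phi f k = ψ k := by
    intro n
    have ho : {χ : ℕ → D × D | ∀ k ≤ n, χ k = ψ k} ∈ 𝓝 ψ := by
      have : {χ : ℕ → D × D | ∀ k ≤ n, χ k = ψ k} = Set.pi (Iic n) (fun k => {ψ k}) := by
        ext χ
        simp [Set.mem_pi]
      rw [this]
      exact set_pi_mem_nhds (finite_Iic n) (fun k _ => (isOpen_discrete _).mem_nhds rfl)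
    obtain ⟨χ, h1, f, rfl⟩ := mem_closure_iff_nhds.1 hψ _ ho
    exact ⟨f, h1⟩
  choose F hF using key
  have a1 : ∀ k n m : ℕ, k ≤ n → k ≤ m → Agree k (F n).val (F m).val := by
    intro k n m h1 h2
    have := (hF n k h1).trans (hF m k h2).symm
    exact tr_eq_iff.1 (congrArg Prod.fst this)
  have a2 : ∀ k n m : ℕ, k ≤ n → k ≤ m → Agree k (F n).val⁻¹ (F m).val⁻¹ := by
    intro k n m h1 h2
    have := (hF n k h1).trans (hF m k h2).symm
    exact tr_eq_iff.1 (congrArg Prod.snd this)
  let φ : ℚ → ℚ := fun s => (F ⌈s⌉₊).val s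
  let φ' : ℚ → ℚ := fun s => (F ⌈s⌉₊).val⁻¹ s
  have b1 : ∀ (s : ℚ) (n : ℕ), s ≤ n → φ s = (F n).val s := by
    intro s n hs
    exact a1 ⌈s⌉₊ _ _ le_rfl (Nat.ceil_le.2 hs) s (Nat.le_ceil s)
  have b2 : ∀ (s : ℚ) (n : ℕ), s ≤ n → φ' s = (F n).val⁻¹ s := by
    intro s n hs
    exact a2 ⌈s⌉₊ _ _ le_rfl (Nat.ceil_le.2 hs) s (Nat.le_ceil s)
  have hmono : StrictMono φ := by
    intro s t hst
    obtain ⟨n, hn⟩ := exists_nat_ge t
    rw [b1 s n (hst.le.trans hn), b1 t n hn]
    exact (F n).val.strictMono hst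
  have hinv : ∀ t, φ (φ' t) = t := by
    intro t
    obtain ⟨n, hn⟩ := exists_nat_ge (max t (φ' t))
    rw [b1 _ n ((le_max_right _ _).trans hn), b2 _ n ((le_max_left _ _).trans hn)]
    simp
  let e : Aut := hmono.orderIsoOfSurjective _ (fun t => ⟨φ' t, hinv t⟩)
  have he : ∀ s, e s = φ s := fun s => rfl
  have he' : ∀ t, e⁻¹ t = φ' t := by
    intro t
    have h1 : e (φ' t) = t := hinv t
    have h2 : e⁻¹ (e (φ' t)) = φ' t := by simp
    rw [h1] at h2
    exact h2
  have heG : e ∈ G := by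
    intro r
    obtain ⟨n, hn⟩ := exists_nat_ge r
    obtain ⟨h, hh, ha⟩ := (F n).mem r
    refine ⟨h, hh, fun s hs => ?_⟩
    rw [he, b1 s n (hs.trans hn)]
    exact ha s hs
  refine ⟨⟨e, heG⟩, ?_⟩
  funext n
  rw [← hF n n le_rfl]
  refine Prod.ext (tr_eq_iff.2 ?_) (tr_eq_iff.2 ?_)
  · intro s hs
    exact (he s).trans (b1 s n hs)
  · intro s hs
    exact (he' s).trans (b2 s n hs)

instance : PolishSpace PG :=
  (IsClosedEmbedding.mk ⟨Phi_inducing, Phi_injective⟩ isClosed_range_Phi).polishSpace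

/-- stretch maps inside the Polish group -/
noncomputable def sg (a : ℚ) (c : {c : ℚ // 0 < c}) : PG := ⟨str a c, H_le_G (str_mem_H a c)⟩

lemma sg_apply (a : ℚ) (c : {c : ℚ // 0 < c}) (s : ℚ) : (sg a c).val s = strFun a c.1 s := rfl

lemma uncountable_PG : Uncountable PG := by
  rw [← not_countable_iff]
  intro hc
  have : Nonempty PG := ⟨1⟩
  obtain ⟨f, x, hx⟩ := nonempty_interior_of_iUnion_of_closed (X := PG) (ι := PG)
    (f := fun f => ({f} : Set PG)) (fun f => isClosed_singleton) (by ext x; simp)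
  have hx' : x = f := mem_singleton_iff.1 (interior_subset hx)
  subst hx'
  obtain ⟨r, hr⟩ := mem_nhds_iff_agree.1 (mem_interior_iff_mem_nhds.1 hx)
  have h1 : x * sg r ⟨2, by norm_num⟩ = x := by
    apply hr
    intro s hs
    show x.val ((sg r ⟨2, by norm_num⟩).val s) = x.val s
    rw [sg_apply]
    simp [strFun, hs]
  have h2 : sg r ⟨2, by norm_num⟩ = 1 := by simpa using h1
  have h3 : (sg r ⟨2, by norm_num⟩).val (r + 1) = r + 1 := by rw [h2]; rfl
  rw [sg_apply] at h3
  have h4 : ¬ (r + 1 ≤ r) := by linarith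
  simp only [strFun, h4, if_false] at h3
  linarith

end Pool.Agent.H33Z.Darji
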