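import Pool.Agent.H33Z.DarjiGroup

set_option autoImplicit false

open Set Topology Filter

namespace Pool.Agent.H33Z.Darji

/-- the sorting step: finitely many germs are pushed into a dense open set one after another -/
lemma finite_catch {V : Set PG} (hVo : IsOpen V) (hVd : Dense V) (R : ℚ) (s : Finset PG) :
    ∀ x y : ℚ, x < R → (∀ f ∈ s, y < f.val R) → ∀ η γ : PG, ∃ η' γ' : PG,
      Agree x η'.val η.val ∧ Agree y γ'.val γ.val ∧
        ∀ f ∈ s, ∀ f' : PG, Agree R f'.val f.val → γ' * f' * η'⁻¹ ∈ V := by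
  classical
  induction s using Finset.induction_on_min_value (fun f : PG => f.val R) with
  | empty =>
    intro x y _ _ η γ
    exact ⟨η, γ, Agree.refl _ _, Agree.refl _ _, by simp⟩
  | insert a s ha hmin ih =>
    intro x y hx hy η γ
    have hya : y < a.val R := hy a (Finset.mem_insert_self _ _)
    have hya' : a.val⁻¹ y < R := by
      have := (a.val⁻¹ : Aut).strictMono hya
      simpa using this
    set x' : ℚ := max x (a.val⁻¹ y) with hx'
    have hx'R : x' < R := max_lt hx hya'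
    set x1 : ℚ := (x' + R) / 2 with hx1
    have h1 : x' < x1 := by rw [hx1]; linarith
    have h2 : x1 < R := by rw [hx1]; linarith
    obtain ⟨t, ht1, htV⟩ := mem_closure_iff_nhds.1 (hVd (γ * a * η⁻¹)) _
      (agree_mem_nhds (η.val x') (γ * a * η⁻¹))
    obtain ⟨b, hb⟩ := mem_nhds_iff_agree.1 (hVo.mem_nhds htV)
    let c : {c : ℚ // 0 < c} := ⟨max 1 ((η.val⁻¹ b - x') / (x1 - x')),
      lt_of_lt_of_le one_pos (le_max_left _ _)⟩
    let σ : PG := sg x' c
    have hσ1 : ∀ u, u ≤ x' → σ.val u = u := by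
      intro u hu
      show strFun x' c.1 u = u
      simp [strFun, hu]
    have hσ2 : η.val⁻¹ b ≤ σ.val x1 := by
      show _ ≤ strFun x' c.1 x1
      have h3 : ¬ (x1 ≤ x') := not_le.2 h1
      simp only [strFun, h3, if_false]
      have h4 : (η.val⁻¹ b - x') / (x1 - x') ≤ c.1 := le_max_right _ _
      have h5 : 0 < x1 - x' := by linarith
      rw [div_le_iff₀ h5] at h4
      linarith
    have hb1 : b ≤ (η * σ).val x1 := by
      have := η.val.monotone hσ2
      simpa using this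
    obtain ⟨η', γ', e1, e2, e3⟩ := ih x1 (a.val x1) h2
      (fun f hf => lt_of_lt_of_le (a.val.strictMono h2) (hmin f hf)) (η * σ) (t * (η * σ) * a⁻¹)
    refine ⟨η', γ', ?_, ?_, ?_⟩
    · intro u hu
      have hu' : u ≤ x' := hu.trans (le_max_left _ _)
      rw [e1 u (hu'.trans h1.le)]
      show η.val (σ.val u) = η.val u
      rw [hσ1 u hu']
    · intro u hu
      have hu1 : a.val⁻¹ u ≤ x' := ((a.val⁻¹ : Aut).monotone hu).trans (le_max_right _ _)
      have hu2 : u ≤ a.val x1 := by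
        have := a.val.monotone (hu1.trans h1.le)
        simpa using this
      rw [e2 u hu2]
      show t.val (η.val (σ.val (a.val⁻¹ u))) = γ.val u
      rw [hσ1 _ hu1, ht1 _ (η.val.monotone hu1)]
      show γ.val (a.val (η.val⁻¹ (η.val (a.val⁻¹ u)))) = γ.val u
      simp
    · intro f hf f' hf'
      rcases Finset.mem_insert.1 hf with rfl | hf
      · apply hb
        intro u hu
        have hu1 : (η * σ).val⁻¹ u ≤ x1 := by
          have := ((η * σ).val⁻¹ : Aut).monotone (hu.trans hb1)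
          simpa using this
        have hu2 : η'.val⁻¹ u = (η * σ).val⁻¹ u := e1.inv u (hu.trans hb1)
        show γ'.val (f'.val (η'.val⁻¹ u)) = t.val u
        rw [hu2, hf' _ (hu1.trans h2.le), e2 _ (f.val.monotone hu1)]
        show t.val ((η * σ).val (f.val⁻¹ (f.val ((η * σ).val⁻¹ u)))) = t.val u
        simp only [RelIso.inv_apply_self, RelIso.apply_inv_self]
      · exact e3 f hf f' hf'

/-- pairs that move a compact set into a dense open set are dense -/
lemma dense_catch {V : Set PG} (hVo : IsOpen V) (hVd : Dense V) {K : Set PG} (hK : IsCompact K) :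
    Dense {p : PG × PG | ∀ f ∈ K, p.1 * f * p.2 ∈ V} := by
  classical
  rintro ⟨g, h⟩
  rw [mem_closure_iff_nhds]
  intro U hU
  rw [nhds_prod_eq, Filter.mem_prod_iff] at hU
  obtain ⟨U1, hU1, U2, hU2, hsub⟩ := hU
  obtain ⟨r1, hr1⟩ := mem_nhds_iff_agree.1 hU1
  obtain ⟨r2, hr2⟩ := mem_nhds_iff_agree.1 hU2
  obtain ⟨t1, -, ht1⟩ := hK.elim_nhds_subcover
    (fun f => {g : PG | Agree (f.val⁻¹ r1 + 1) g.val f.val}) (fun f _ => agree_mem_nhds _ f)
  obtain ⟨R0, hR0⟩ := (t1.image (fun f : PG => f.val⁻¹ r1 + 1)).bddAbove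
  set R : ℚ := max R0 (h.val r2 + 1) with hR
  have hKR : ∀ f ∈ K, r1 < f.val R := by
    intro f hf
    obtain ⟨f0, hf0, hff⟩ := mem_iUnion₂.1 (ht1 hf)
    have e1 : f0.val⁻¹ r1 + 1 ≤ R0 := hR0 (Finset.mem_coe.2 (Finset.mem_image_of_mem _ hf0))
    have e2 : f.val (f0.val⁻¹ r1 + 1) = f0.val (f0.val⁻¹ r1 + 1) := hff _ le_rfl
    have e3 : f0.val (f0.val⁻¹ r1) < f0.val (f0.val⁻¹ r1 + 1) :=
      f0.val.strictMono (by linarith)
    have e4 : f.val (f0.val⁻¹ r1 + 1) ≤ f.val R :=
      f.val.monotone (e1.trans (le_max_left _ _))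
    simp only [RelIso.apply_inv_self] at e3
    linarith
  obtain ⟨t2, ht2K, ht2⟩ := hK.elim_nhds_subcover
    (fun f => {g : PG | Agree R g.val f.val}) (fun f _ => agree_mem_nhds _ f)
  obtain ⟨η', γ', e1, e2, e3⟩ := finite_catch hVo hVd R t2 (h.val r2) r1
    (lt_of_lt_of_le (by linarith) (le_max_right _ _)) (fun f hf => hKR f (ht2K f hf)) h⁻¹ g
  refine ⟨(γ', η'⁻¹), hsub ⟨hr1 _ e2, hr2 _ ?_⟩, ?_⟩
  · have := e1.inv
    simpa using this
  · intro f hf
    obtain ⟨f0, hf0, hff⟩ := mem_iUnion₂.1 (ht2 hf)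
    exact e3 f0 hf0 f hff

lemma isOpen_catch {V : Set PG} (hVo : IsOpen V) {K : Set PG} (hK : IsCompact K) :
    IsOpen {p : PG × PG | ∀ f ∈ K, p.1 * f * p.2 ∈ V} := by
  rw [isOpen_iff_eventually]
  intro p hp
  apply hK.eventually_forall_of_forall_eventually
  intro f hf
  have hc : Continuous (fun z : (PG × PG) × PG => z.1.1 * z.2 * z.1.2) := by fun_prop
  exact hc.continuousAt.eventually (hVo.mem_nhds (hp f hf))

/-- every comeager set contains a two-sided translate of every compact set -/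
theorem residual_catch {A : Set PG} (hA : IsMeagre A) {K : Set PG} (hK : IsCompact K) :
    ∃ g h : PG, ∀ f ∈ K, g * f * h ∉ A := by
  obtain ⟨S, hSo, hSd, hSc, hS⟩ := mem_residual_iff.1 hA
  have hd : Dense (⋂ V ∈ S, {p : PG × PG | ∀ f ∈ K, p.1 * f * p.2 ∈ V}) :=
    dense_biInter_of_isOpen (fun V hV => isOpen_catch (hSo V hV) hK) hSc
      (fun V hV => dense_catch (hSo V hV) (hSd V hV) hK)
  have : Nonempty (PG × PG) := ⟨(1, 1)⟩
  obtain ⟨p, hp⟩ := hd.nonempty
  refine ⟨p.1, p.2, fun f hf => hS ?_⟩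
  intro V hV
  exact mem_iInter₂.1 hp V hV f hf

end Pool.Agent.H33Z.Darji
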