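import Pool.Agent.H800Z.Erg.St2
import Pool.Agent.H844Z.Kara

/-! Almost everywhere convergence of the ball averages of bounded functions. -/

set_option autoImplicit false

open MeasureTheory Filter Topology
open scoped ENNReal NNReal

namespace Pool.Agent.H33Z.ErgBdd

open Pool.Agent.H800Z.Erg

/-- The ratios of the geometric sequences. -/
noncomputable def rr (i : ℕ) : ℝ := 1 - 1 / ((i : ℝ) + 2)

lemma rr_pos (i : ℕ) : 0 < rr i := by
  have h : (0 : ℝ) ≤ i := Nat.cast_nonneg i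
  have : 1 / ((i : ℝ) + 2) < 1 := by
    rw [div_lt_one (by linarith)]; linarith
  unfold rr; linarith

lemma rr_lt_one (i : ℕ) : rr i < 1 := by
  have h : (0 : ℝ) ≤ i := Nat.cast_nonneg i
  have : 0 < 1 / ((i : ℝ) + 2) := by positivity
  unfold rr; linarith

lemma rr_tendsto : Tendsto rr atTop (𝓝 1) := by
  have h1 : Tendsto (fun i : ℕ => ((i : ℝ) + 2)) atTop atTop :=
    tendsto_atTop_add_const_right _ _ tendsto_natCast_atTop_atTop
  have h2 : Tendsto (fun i : ℕ => 1 / ((i : ℝ) + 2)) atTop (𝓝 0) :=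
    tendsto_const_nhds.div_atTop h1
  have h3 := (tendsto_const_nhds (x := (1 : ℝ))).sub h2
  rw [sub_zero] at h3
  exact h3

lemma near {r : ℝ} (h0 : 0 < r) (h1 : r < 1) (n₀ : ℕ) :
    ∀ᶠ τ in 𝓝[>] (0 : ℝ), 0 < τ ∧ ∃ n, n₀ ≤ n ∧ r ^ (n + 1) < τ ∧ τ ≤ r ^ n := by
  have h2 : Set.Ioo (0 : ℝ) (r ^ n₀) ∈ 𝓝[>] (0 : ℝ) := Ioo_mem_nhdsGT (pow_pos h0 _)
  filter_upwards [h2] with τ hτ
  refine ⟨hτ.1, ?_⟩
  have h3 : τ ≤ 1 := hτ.2.le.trans (pow_le_one₀ h0.le h1.le)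
  obtain ⟨n, hn1, hn2⟩ := exists_nat_pow_near_of_lt_one hτ.1 h3 h0 h1
  refine ⟨n, ?_, hn1, hn2⟩
  by_contra hc
  have h4 : n + 1 ≤ n₀ := by omega
  have h5 : r ^ n₀ ≤ r ^ (n + 1) := pow_le_pow_of_le_one h0.le h1.le h4
  linarith [hτ.2]

lemma squeeze (L : ℝ → ℝ) (A : ℝ) (hL : ∀ σ τ, 0 < σ → σ ≤ τ → L τ ≤ L σ)
    (h0 : ∀ τ, 0 < τ → 0 ≤ L τ)
    (h : ∀ i : ℕ, Tendsto (fun n : ℕ => rr i ^ n * L (rr i ^ n)) atTop (𝓝 A)) :
    Tendsto (fun τ => τ * L τ) (𝓝[>] 0) (𝓝 A) := by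
  rw [tendsto_order]
  constructor
  · intro a ha
    have h1 : Tendsto (fun i => rr i * A) atTop (𝓝 (1 * A)) := rr_tendsto.mul_const A
    rw [one_mul] at h1
    obtain ⟨i, hi⟩ := (h1.eventually (lt_mem_nhds ha)).exists
    have h2 := ((h i).const_mul (rr i)).eventually (lt_mem_nhds hi)
    obtain ⟨n₀, hn₀⟩ := eventually_atTop.1 h2
    filter_upwards [near (rr_pos i) (rr_lt_one i) n₀] with τ hτ
    obtain ⟨hτ0, n, hn, h3, h4⟩ := hτ
    have h5 := hn₀ n hn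
    have h6 := hL τ _ hτ0 h4
    have h7 := h0 _ (pow_pos (rr_pos i) n)
    calc a < rr i * (rr i ^ n * L (rr i ^ n)) := h5
      _ = rr i ^ (n + 1) * L (rr i ^ n) := by ring
      _ ≤ τ * L (rr i ^ n) := mul_le_mul_of_nonneg_right h3.le h7
      _ ≤ τ * L τ := mul_le_mul_of_nonneg_left h6 hτ0.le
  · intro a ha
    have h1 : Tendsto (fun i => (rr i)⁻¹ * A) atTop (𝓝 (1⁻¹ * A)) :=
      (rr_tendsto.inv₀ one_ne_zero).mul_const A
    rw [inv_one, one_mul] at h1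
    obtain ⟨i, hi⟩ := (h1.eventually (gt_mem_nhds ha)).exists
    have h2 := ((h i).const_mul (rr i)⁻¹).eventually (gt_mem_nhds hi)
    obtain ⟨n₀, hn₀⟩ := eventually_atTop.1 h2
    filter_upwards [near (rr_pos i) (rr_lt_one i) n₀] with τ hτ
    obtain ⟨hτ0, n, hn, h3, h4⟩ := hτ
    have h5 := hn₀ (n + 1) (by omega)
    have h8 := pow_pos (rr_pos i) (n + 1)
    have h6 := hL _ τ h8 h3.le
    have h7 := h0 _ h8
    have h9 := (rr_pos i).ne'
    calc τ * L τ ≤ τ * L (rr i ^ (n + 1)) := mul_le_mul_of_nonneg_left h6 hτ0.le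
      _ ≤ rr i ^ n * L (rr i ^ (n + 1)) := mul_le_mul_of_nonneg_right h4 h7
      _ = (rr i)⁻¹ * (rr i ^ (n + 1) * L (rr i ^ (n + 1))) := by field_simp; ring
      _ < a := h5

lemma ae_zero {X : Type} [MeasurableSpace X] (μ : Measure X) (F : ℕ → X → ℝ)
    (hm : ∀ n, Measurable (F n)) (hi : ∀ n, Integrable (fun x => F n x ^ 2) μ) (u : ℕ → ℝ)
    (hu : Summable u) (hb : ∀ n, ∫ x, F n x ^ 2 ∂μ ≤ u n) :
    ∀ᵐ x ∂μ, Tendsto (fun n => F n x) atTop (𝓝 0) := by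
  have h0 : ∀ n, 0 ≤ u n := fun n => (integral_nonneg fun x => sq_nonneg _).trans (hb n)
  have hm' : ∀ n, Measurable fun x => ENNReal.ofReal (F n x ^ 2) :=
    fun n => ((hm n).pow_const 2).ennreal_ofReal
  have h1 : ∫⁻ x, ∑' n, ENNReal.ofReal (F n x ^ 2) ∂μ ≠ ∞ := by
    rw [lintegral_tsum fun n => (hm' n).aemeasurable]
    refine ne_top_of_le_ne_top (b := ∑' n, ENNReal.ofReal (u n)) ?_ ?_
    · rw [← ENNReal.ofReal_tsum_of_nonneg h0 hu]
      exact ENNReal.ofReal_ne_top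
    · refine ENNReal.tsum_le_tsum fun n => ?_
      rw [← ofReal_integral_eq_lintegral_ofReal (hi n)
        (Eventually.of_forall fun x => sq_nonneg _)]
      exact ENNReal.ofReal_le_ofReal (hb n)
  filter_upwards [ae_lt_top (Measurable.ennreal_tsum hm') h1] with x hx
  have h2 := ENNReal.tendsto_atTop_zero_of_tsum_ne_top hx.ne
  have h3 := (ENNReal.tendsto_toReal ENNReal.zero_ne_top).comp h2
  have h4 : Tendsto (fun n => F n x ^ 2) atTop (𝓝 0) := by
    refine (Tendsto.congr (fun n => ?_) h3)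
    simp only [Function.comp]
    exact ENNReal.toReal_ofReal (sq_nonneg _)
  have h5 := h4.sqrt
  rw [Real.sqrt_zero] at h5
  rw [tendsto_zero_iff_abs_tendsto_zero]
  refine h5.congr fun n => ?_
  simp only [Function.comp]
  exact Real.sqrt_sq_eq_abs _

section
variable [MeasurableSpace G] [BorelSpace G] (m : Measure G) [m.IsHaarMeasure]
  {X : Type} [MeasurableSpace X] [MulAction G X] {μ : Measure X} [IsProbabilityMeasure μ]

omit [BorelSpace G] [IsProbabilityMeasure μ] in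
lemma meas_orbit (ha : Act X μ) {ψ : X → ℝ} (hψ : Measurable ψ) (x : X) :
    Measurable fun g : G => ψ (g • x) :=
  hψ.comp (ha.meas.comp (measurable_id.prodMk measurable_const))

omit [IsProbabilityMeasure μ] in
lemma int_orbit (ha : Act X μ) {ψ : X → ℝ} (hψ : Measurable ψ) {b : ℝ} (hb : ∀ x, |ψ x| ≤ b)
    {τ : ℝ} (hτ : 0 < τ) (x : X) : Integrable (fun g => ker 0 τ g * ψ (g • x)) m :=
  (integrable_ker m 0 hτ).mul_bdd (c := b) (meas_orbit ha hψ x).aestronglyMeasurable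
    (Eventually.of_forall fun g => hb _)

omit [IsProbabilityMeasure μ] in
lemma meas_avg (ha : Act X μ) {ψ : X → ℝ} (hψ : Measurable ψ) (τ : ℝ) :
    Measurable fun x => ∫ g, ker 0 τ g * ψ (g • x) ∂m := by
  have h1 : Measurable fun p : G × X => ker 0 τ p.1 * ψ (p.1 • p.2) :=
    ((continuous_ker 0 τ).measurable.comp measurable_fst).mul (hψ.comp ha.meas)
  exact (h1.stronglyMeasurable.integral_prod_left' (μ := m)).measurable

lemma bdd_avg {ψ : X → ℝ} {b : ℝ} (hb : ∀ x, |ψ x| ≤ b) {τ : ℝ} (hτ : 0 < τ) (x : X) :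
    |∫ g, ker 0 τ g * ψ (g • x) ∂m| ≤ ∫ g, ker 0 τ g * b ∂m := by
  rw [← Real.norm_eq_abs]
  refine norm_integral_le_of_norm_le ((integrable_ker m 0 hτ).mul_const b)
    (Eventually.of_forall fun g => ?_)
  rw [Real.norm_eq_abs, abs_mul, abs_of_pos (ker_pos 0 τ g)]
  exact mul_le_mul_of_nonneg_left (hb _) (ker_pos 0 τ g).le

lemma geo (ha : Act X μ) (hd : Dec m X μ) {α : ℝ} (hv : Vol m α) {ψ : X → ℝ}
    (hψ : Measurable ψ) {b : ℝ} (hb : ∀ x, |ψ x| ≤ b) {r : ℝ} (h0 : 0 < r) (h1 : r < 1) :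
    ∀ᵐ x ∂μ, Tendsto (fun n : ℕ => r ^ n * ∫ g, ker 0 (r ^ n) g * ψ (g • x) ∂m) atTop
      (𝓝 (α * ∫ y, ψ y ∂μ)) := by
  obtain ⟨C, c, hc, hd⟩ := hd
  have hp : ∀ n : ℕ, 0 < r ^ n := fun n => pow_pos h0 n
  have hm : ∀ n : ℕ, Measurable fun x =>
      ∫ g, ker 0 (r ^ n) g * ψ (g • x) ∂m - V m (r ^ n) * ∫ y, ψ y ∂μ :=
    fun n => (meas_avg m ha hψ _).sub_const _
  have hrc : r ^ c < 1 := Real.rpow_lt_one h0.le h1 hc
  have hrc0 : 0 < r ^ c := Real.rpow_pos_of_pos h0 c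
  have key := ae_zero μ (fun n x => r ^ n *
      (∫ g, ker 0 (r ^ n) g * ψ (g • x) ∂m - V m (r ^ n) * ∫ y, ψ y ∂μ))
    (fun n => (hm n).const_mul _) (fun n => ?_)
    (fun n => (C ^ 2 * ∫ x, ψ x ^ 2 ∂μ) * ((r ^ c) ^ 2) ^ n) ?_ (fun n => ?_)
  · have h2 : Tendsto (fun n : ℕ => r ^ n) atTop (𝓝 0) :=
      tendsto_pow_atTop_nhds_zero_of_lt_one h0.le h1
    have h3 : Tendsto (fun n : ℕ => α * Real.exp (-(2 * r ^ n)) * ∫ y, ψ y ∂μ) atTop
        (𝓝 (α * Real.exp (-(2 * 0)) * ∫ y, ψ y ∂μ)) :=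
      (((Real.continuous_exp.tendsto _).comp (h2.const_mul 2).neg).const_mul α).mul_const _
    filter_upwards [key] with x hx
    have h4 := hx.add h3
    simp only [mul_zero, neg_zero, Real.exp_zero, mul_one, zero_add] at h4
    refine h4.congr fun n => ?_
    rw [hv.2 _ (hp n)]
    have := (hp n).ne'
    field_simp
    ring
  · refine Integrable.of_bound (((hm n).const_mul _).pow_const 2).aestronglyMeasurable
      ((r ^ n * (∫ g, ker 0 (r ^ n) g * b ∂m + |V m (r ^ n) * ∫ y, ψ y ∂μ|)) ^ 2)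
      (Eventually.of_forall fun x => ?_)
    rw [Real.norm_eq_abs, abs_pow]
    refine pow_le_pow_left₀ (abs_nonneg _) ?_ 2
    rw [abs_mul, abs_of_pos (hp n)]
    refine mul_le_mul_of_nonneg_left ((abs_sub _ _).trans ?_) (hp n).le
    linarith [bdd_avg m hb (hp n) x]
  · exact (summable_geometric_of_lt_one (by positivity) (by nlinarith)).mul_left _
  · simp only [mul_pow]
    rw [integral_const_mul]
    have h5 := hd ψ hψ ⟨b, hb⟩ (r ^ n) (hp n) (pow_le_one₀ h0.le h1.le)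
    refine (mul_le_mul_of_nonneg_left h5 (sq_nonneg _)).trans (le_of_eq ?_)
    have h6 : (r ^ n) ^ c = (r ^ c) ^ n := by
      rw [← Real.rpow_natCast, ← Real.rpow_mul h0.le, mul_comm, Real.rpow_mul h0.le,
        Real.rpow_natCast]
    rw [h6]
    have := (hp n).ne'
    field_simp
    ring

lemma nonneg_case (ha : Act X μ) (hd : Dec m X μ) {α : ℝ} (hv : Vol m α) {ψ : X → ℝ}
    (hψ : Measurable ψ) {b : ℝ} (hb : ∀ x, |ψ x| ≤ b) (h0 : ∀ x, 0 ≤ ψ x) :
    ∀ᵐ x ∂μ, Tendsto (fun R : ℝ => R⁻¹ * ∫ g in B R, ψ (g • x) ∂m) atTop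
      (𝓝 (α * ∫ y, ψ y ∂μ)) := by
  have h1 := ae_all_iff.2 fun i : ℕ => geo m ha hd hv hψ hb (rr_pos i) (rr_lt_one i)
  filter_upwards [h1] with x hx
  have h2 := squeeze (fun τ => ∫ g, ker 0 τ g * ψ (g • x) ∂m) _ (fun σ τ hσ hστ => ?_)
    (fun τ _ => integral_nonneg fun g => mul_nonneg (ker_pos 0 τ g).le (h0 _)) hx
  · refine Pool.Agent.H844Z.Kara.thm_kara G m N (fun g => ψ (g • x)) _ measurable_N
      (fun g => (N_pos g).le) (fun g => h0 _) (fun τ hτ => ?_) ?_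
    · simpa only [ker_zero] using int_orbit m ha hψ hb hτ x
    · simpa only [ker_zero] using h2
  · refine integral_mono (int_orbit m ha hψ hb (hσ.trans_le hστ) x) (int_orbit m ha hψ hb hσ x)
      fun g => mul_le_mul_of_nonneg_right ?_ (h0 _)
    rw [ker_zero, ker_zero]
    refine Real.exp_le_exp.2 ?_
    nlinarith [N_pos g]

end

theorem thm_bdd : S_bdd := by
  intro _ _ m _ X _ _ μ _ α ha hd hv ψ hψ ⟨b, hb⟩
  have hb' : ∀ x, |ψ x| ≤ |b| := fun x => (hb x).trans (le_abs_self b)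
  have h1 := nonneg_case m ha hd hv (ψ := fun x => ψ x + |b|) (hψ.add_const _) (b := 2 * |b|)
    (fun x => by
      have := abs_add_le (ψ x) |b|
      rw [abs_abs] at this
      linarith [hb' x]) (fun x => by linarith [neg_abs_le (ψ x), hb' x])
  have h2 := nonneg_case m ha hd hv (ψ := fun _ => |b|) measurable_const (b := |b|)
    (fun _ => (abs_abs b).le) (fun _ => abs_nonneg b)
  have hi : Integrable ψ μ :=
    Integrable.of_bound hψ.aestronglyMeasurable b (Eventually.of_forall hb)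
  filter_upwards [h1, h2] with x hx1 hx2
  have h3 := hx1.sub hx2
  rw [integral_add hi (integrable_const _), ← mul_sub, add_sub_cancel_right] at h3
  refine h3.congr fun R => ?_
  have : IsFiniteMeasure (m.restrict (B R)) :=
    isFiniteMeasure_restrict.2 (measure_B_lt_top m R).ne
  have h4 : Integrable (fun g : G => ψ (g • x)) (m.restrict (B R)) :=
    Integrable.of_bound (meas_orbit ha hψ x).aestronglyMeasurable b
      (Eventually.of_forall fun g => hb _)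
  rw [integral_add h4 (integrable_const _), ← mul_sub, add_sub_cancel_right]

end Pool.Agent.H33Z.ErgBdd
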