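import Pool.Agent.H985Z.SC.Spec

/-! Disjoint crossings of an annulus keep their order in the universal cover. -/

namespace Pool.Agent.H33Z.SCT

open Pool.Agent.H985Z.SC Complex unitInterval

lemma slit {z : ℂ} (h0 : z ≠ 0) (h : 0 ≤ z.re) : z ∈ slitPlane := by
  rw [mem_slitPlane_iff]
  by_contra hc
  push Not at hc
  exact h0 (Complex.ext (le_antisymm hc.1 h) hc.2)

lemma exp_log_neg {z : ℂ} (h0 : z ≠ 0) : exp (log (-z) - Real.pi * Complex.I) = z := by
  rw [exp_sub, exp_log (neg_ne_zero.2 h0), exp_pi_mul_I]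
  simp

lemma uniq {f g : I → ℂ} (hf : Continuous f) (hg : Continuous g)
    (h : ∀ t, exp (f t) = exp (g t)) (h0 : f 0 = g 0) : f 1 = g 1 :=
  congrFun (isCoveringMap_exp.eq_of_comp_eq hf hg (funext fun t => Subtype.ext (h t)) 0 h0) 1

lemma square (v : I × I → ℂ) (hv : Continuous v) (h0 : ∀ p, v p ≠ 0)
    (h1 : ∀ t, (v (0, t)).re ≤ 0) (h2 : ∀ s, (v (s, 1)).re ≤ 0)
    (h3 : ∀ s, 0 ≤ (v (s, 0)).re) (h4 : ∀ t, 0 ≤ (v (1, t)).re) (h5 : (v (0, 0)).im < 0) :
    (v (1, 1)).im < 0 := by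
  by_contra hc
  have h6 : 0 < (v (1, 1)).im := by
    refine lt_of_le_of_ne (not_lt.1 hc) fun h => h0 (1, 1) ?_
    exact Complex.ext (le_antisymm (h2 1) (h4 1)) h.symm
  have c1 : Continuous fun t : I => log (-v (0, t)) - Real.pi * Complex.I :=
    ((hv.comp (by fun_prop)).neg.clog fun t => slit (neg_ne_zero.2 (h0 _))
      (by simpa using h1 t)).sub continuous_const
  have c2 : Continuous fun s : I => log (-v (s, 1)) - Real.pi * Complex.I :=
    ((hv.comp (by fun_prop)).neg.clog fun t => slit (neg_ne_zero.2 (h0 _))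
      (by simpa using h2 t)).sub continuous_const
  have c3 : Continuous fun s : I => log (v (s, 0)) :=
    (hv.comp (by fun_prop)).clog fun t => slit (h0 _) (h3 t)
  have c4 : Continuous fun t : I => log (v (1, t)) :=
    (hv.comp (by fun_prop)).clog fun t => slit (h0 _) (h4 t)
  let H : C(I × I, {z : ℂ // z ≠ 0}) := ⟨fun p => ⟨v p, h0 p⟩, hv.subtype_mk _⟩
  let f : C(I, ℂ) := ⟨_, c1⟩
  have H0 : ∀ a, H (0, a) = ⟨exp (f a), exp_ne_zero _⟩ :=
    fun a => Subtype.ext (exp_log_neg (h0 _)).symm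
  let L := isCoveringMap_exp.liftHomotopy H f H0
  have hL : ∀ p, exp (L p) = v p := fun p =>
    congrArg Subtype.val (congrFun (isCoveringMap_exp.liftHomotopy_lifts H f H0) p)
  have hL0 : ∀ a, L (0, a) = log (-v (0, a)) - Real.pi * Complex.I :=
    fun a => isCoveringMap_exp.liftHomotopy_zero H f H0 a
  have e0 : L (0, 0) = log (v (0, 0)) := by
    rw [hL0]
    apply Complex.ext
    · simp [log_re]
    · simp [log_im, arg_neg_eq_arg_add_pi_of_im_neg h5]
  have e1 : L (1, 0) = log (v (1, 0)) :=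
    uniq (f := fun s => L (s, 0)) (L.continuous.comp (by fun_prop)) c3
      (fun s => by rw [hL, exp_log (h0 _)]) e0
  have e2 : L (1, 1) = log (v (1, 1)) :=
    uniq (f := fun t => L (1, t)) (L.continuous.comp (by fun_prop)) c4
      (fun s => by rw [hL, exp_log (h0 _)]) e1
  have e3 : L (1, 1) = log (-v (1, 1)) - Real.pi * Complex.I :=
    uniq (f := fun s => L (s, 1)) (L.continuous.comp (by fun_prop)) c2
      (fun s => by rw [hL, exp_log_neg (h0 _)]) (hL0 1)
  have e4 := congrArg Complex.im (e2.symm.trans e3)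
  simp [log_im, arg_neg_eq_arg_sub_pi_of_im_pos h6] at e4
  linarith [Real.pi_pos]

lemma coe_shift (a : ℝ) (n : ℤ) : ((a + 2 * Real.pi * n : ℝ) : Real.Angle) = a :=
  Real.Angle.angle_eq_iff_two_pi_dvd_sub.2 ⟨n, by ring⟩

lemma cov : IsCoveringMap ((↑) : ℝ → Real.Angle) := AddCircle.isCoveringMap_coe (2 * Real.pi)

theorem lemT : S_T := by
  intro X _ A
  refine ⟨?_, ?_, ?_⟩
  · rintro S S' x x' y y' a a' b b' hS hx hx' hy hy' ⟨γ, θ, hγ, hθ, h0, h1⟩
      ⟨γ', θ', hγ', hθ', h0', h1'⟩ hlt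
    have cg := A.cg
    have ch := A.ch
    have key := square (fun p => ⟨A.g (γ p.1) * A.h (γ' p.2) - A.g (γ' p.2) * A.h (γ p.1),
      θ p.1 - θ' p.2⟩) ?_ ?_ ?_ ?_ ?_ ?_ ?_
    · simp only [h1, h1'] at key
      linarith
    · rw [← Complex.equivRealProdCLM.toHomeomorph.comp_continuous_iff]
      exact Continuous.prodMk
        (show Continuous fun p : I × I =>
          A.g (γ p.1) * A.h (γ' p.2) - A.g (γ' p.2) * A.h (γ p.1) by fun_prop)
        (show Continuous fun p : I × I => θ p.1 - θ' p.2 by fun_prop)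
    · intro p hp
      have e1 : A.g (γ p.1) * A.h (γ' p.2) - A.g (γ' p.2) * A.h (γ p.1) = 0 :=
        congrArg Complex.re hp
      have e2 : θ p.1 - θ' p.2 = 0 := congrArg Complex.im hp
      have e3 : A.d (γ p.1) = A.d (γ' p.2) := by rw [← hθ, ← hθ', sub_eq_zero.1 e2]
      have e4 := A.sep _ _ e3 (sub_eq_zero.1 e1)
      exact Set.disjoint_left.1 hS (hγ p.1) (e4 ▸ hγ' p.2)
    · intro t
      simp only [Path.source, hx]
      nlinarith [mul_nonneg (A.g0 (γ' t)) (A.h0 x)]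
    · intro s
      simp only [Path.target, hy']
      nlinarith [mul_nonneg (A.g0 y') (A.h0 (γ s))]
    · intro s
      simp only [Path.source, hx']
      nlinarith [mul_nonneg (A.g0 (γ s)) (A.h0 x')]
    · intro t
      simp only [Path.target, hy]
      nlinarith [mul_nonneg (A.g0 y) (A.h0 (γ' t))]
    · simp only [h0, h0']
      linarith
  · rintro S x y a b ⟨γ, hγ⟩ ha hb
    obtain ⟨Γ, hΓ, hΓ0⟩ := cov.exists_path_lifts
      (⟨fun s => A.d (γ.symm s), A.cd.comp γ.symm.continuous⟩ : C(I, Real.Angle)) b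
      (by simp [hb])
    have hΓ' : ∀ s, ((Γ s : ℝ) : Real.Angle) = A.d (γ.symm s) := fun s => congrFun hΓ s
    have h1 : ((Γ 1 : ℝ) : Real.Angle) = a := by rw [hΓ', ha]; simp
    obtain ⟨n, hn⟩ := Real.Angle.angle_eq_iff_two_pi_dvd_sub.1 h1
    refine ⟨n, γ, ⟨fun s => Γ (σ s), Γ.continuous.comp continuous_symm⟩, hγ, fun s => ?_, ?_, ?_⟩
    · show ((Γ (σ s) : ℝ) : Real.Angle) = _
      rw [hΓ']
      simp
    · show Γ (σ 0) = _
      rw [symm_zero]
      linarith
    · show Γ (σ 1) = _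
      rw [symm_one, hΓ0]
  · rintro S x y a b n ⟨γ, θ, hγ, hθ, h0, h1⟩
    refine ⟨γ, ⟨fun s => θ s + 2 * Real.pi * n, by fun_prop⟩, hγ, fun s => ?_, ?_, ?_⟩
    · show ((θ s + 2 * Real.pi * n : ℝ) : Real.Angle) = _
      rw [coe_shift, hθ]
    · show θ 0 + _ = _
      rw [h0]
    · show θ 1 + _ = _
      rw [h1]

end Pool.Agent.H33Z.SCT
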