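import Pool.Agent.H33Z.SimData

set_option autoImplicit false

namespace Pool.Agent.H33Z.Sim

def eu (i : ℕ) : ℕ := (euT >>> (3 * i)) % 8
def ev (i : ℕ) : ℕ := (evT >>> (3 * i)) % 8
def idx (u v : ℕ) : ℕ := (ixT >>> (4 * (8 * u + v))) % 16
def dig (c x : ℕ) : ℕ := (c >>> (3 * x)) % 8

/-- pull-back of the edge mask `m` along the vertex map `p` (first `k` edges) -/
def ap (p : ℕ → ℕ) (m : ℕ) : ℕ → ℕ
  | 0 => 0
  | k + 1 => if m.testBit (idx (p (eu k)) (p (ev k))) then ap p m k ||| 2 ^ k else ap p m k

def sub (g a : ℕ) : Bool := g &&& a == g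

def okP (c : ℕ) : Bool :=
  (List.range 6).all fun x => decide (dig c x < 6) &&
    (List.range 6).all fun y => decide (x = y) || !(decide (dig c x = dig c y))

def six (a b c d e f : ℕ) : ℕ → ℕ
  | 0 => a
  | 1 => b
  | 2 => c
  | 3 => d
  | 4 => e
  | _ => f

def safeChk (A : ℕ) : Bool :=
  (List.range 6).all fun a => (List.range 6).all fun b => decide (b = a) ||
  (List.range 6).all fun c => decide (c = a) || decide (c = b) ||
  (List.range 6).all fun d => decide (d = a) || decide (d = b) || decide (d = c) ||
  (List.range 6).all fun e => decide (e = a) || decide (e = b) || decide (e = c) || decide (e = d) ||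
  (List.range 6).all fun f => decide (f = a) || decide (f = b) || decide (f = c) || decide (f = d) ||
    decide (f = e) ||
    gens.all fun g => !(sub g (ap (six a b c d e f) A 15))

def moveChk (a b e x c y : ℕ) : Bool :=
  a.testBit e || b.testBit e || (okP c &&
    if x = 15 then decide (y ∈ gens) && sub y (ap (dig c) (b ||| 2 ^ e) 15)
    else decide (x < 15) && !(a.testBit x) && !((b ||| 2 ^ e).testBit x) && decide (y < states.length) &&
      decide (states.getD y (0, 0) = (ap (dig c) (a ||| 2 ^ x) 15, ap (dig c) (b ||| 2 ^ e) 15)))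

def rowChk (s : ℕ × ℕ) (v : ℕ) : Bool :=
  decide (v % 32768 ∈ reps) && okP ((v >>> 15) % 262144) &&
  sub s.1 (ap (dig ((v >>> 15) % 262144)) (v % 32768) 15) &&
  ((List.range 15).any fun e => !(s.1.testBit e) && !(s.2.testBit e)) &&
  (List.range 15).all fun e =>
    moveChk s.1 s.2 e ((v >>> (33 + 37 * e)) % 16) ((v >>> (37 + 37 * e)) % 262144)
      ((v >>> (55 + 37 * e)) % 32768)

def allChk : List (ℕ × ℕ) → List ℕ → Bool
  | [], _ => true
  | _ :: _, [] => false
  | s :: l, v :: w => rowChk s v && allChk l w

theorem safe_ok : reps.all safeChk = true := by decide +kernel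

theorem all_ok : allChk states certs = true := by decide +kernel

theorem gens_ok : gens.all (fun g => (List.range 15).any fun e => g.testBit e) = true := by
  decide +kernel

theorem gens_lt : gens.all (fun g => decide (g < 2 ^ 15)) = true := by decide +kernel

theorem root_mem : ((1, 0) : ℕ × ℕ) ∈ states := by decide +kernel

end Pool.Agent.H33Z.Sim
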