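import Pool.Agent.H33Z.SimCheck

set_option autoImplicit false

namespace Pool.Agent.H33Z.Sim

open Finset

abbrev X := Sym2 (Fin 6)

def V (x : ℕ) : Fin 6 := Fin.ofNat 6 x

def edge (i : ℕ) : X := s(V (eu i), V (ev i))

def dec (m : ℕ) : Finset X := ((range 15).filter fun i => m.testBit i).image edge

def act (σ : Equiv.Perm (Fin 6)) (A : Finset X) : Finset X := A.image (Sym2.map σ)

theorem edge_inj' : ∀ i j : Fin 15, edge i = edge j → i = j := by decide +kernel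

theorem edge_inj {i j : ℕ} (hi : i < 15) (hj : j < 15) (h : edge i = edge j) : i = j := by
  have := edge_inj' ⟨i, hi⟩ ⟨j, hj⟩ h
  exact congrArg Fin.val this

theorem edge_nd' : ∀ i : Fin 15, V (eu i) ≠ V (ev i) ∧ eu i < 6 ∧ ev i < 6 := by decide +kernel

theorem edge_nd {i : ℕ} (hi : i < 15) : ¬ (edge i).IsDiag := by
  unfold edge
  rw [Sym2.mk_isDiag_iff]
  exact (edge_nd' ⟨i, hi⟩).1

theorem idx_spec : ∀ u v : Fin 6, u ≠ v → idx u v < 15 ∧ edge (idx u v) = s(u, v) := by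
  decide +kernel

theorem exists_edge {e : X} (h : ¬ e.IsDiag) : ∃ i, i < 15 ∧ e = edge i := by
  induction e using Sym2.ind with
  | h u v =>
    rw [Sym2.mk_isDiag_iff] at h
    exact ⟨idx u v, (idx_spec u v h).1, (idx_spec u v h).2.symm⟩

theorem mem_dec {m i : ℕ} (hi : i < 15) : edge i ∈ dec m ↔ m.testBit i = true := by
  unfold dec
  rw [mem_image]
  constructor
  · rintro ⟨j, hj, h⟩
    rw [mem_filter, mem_range] at hj
    rw [← edge_inj hj.1 hi h]
    exact hj.2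
  · intro h
    exact ⟨i, by rw [mem_filter, mem_range]; exact ⟨hi, h⟩, rfl⟩

theorem dec_nd {m : ℕ} {e : X} (h : e ∈ dec m) : ¬ e.IsDiag := by
  unfold dec at h
  rw [mem_image] at h
  obtain ⟨j, hj, rfl⟩ := h
  rw [mem_filter, mem_range] at hj
  exact edge_nd hj.1

theorem dec_or {m i : ℕ} (hi : i < 15) : dec (m ||| 2 ^ i) = insert (edge i) (dec m) := by
  ext e
  by_cases he : e.IsDiag
  · constructor
    · intro h; exact absurd he (dec_nd h)
    · intro h
      rw [mem_insert] at h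
      rcases h with rfl | h
      · exact absurd he (edge_nd hi)
      · exact absurd he (dec_nd h)
  · obtain ⟨j, hj, rfl⟩ := exists_edge he
    rw [mem_insert, mem_dec hj, mem_dec hj, Nat.testBit_or, Nat.testBit_two_pow]
    constructor
    · intro h
      rcases Bool.or_eq_true_iff.mp h with h | h
      · exact Or.inr h
      · left
        have : i = j := by simpa using h
        rw [this]
    · rintro (h | h)
      · have := edge_inj hj hi h
        simp [this]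
      · simp [h]

theorem map_nd (σ : Equiv.Perm (Fin 6)) {e : X} : (Sym2.map σ e).IsDiag ↔ e.IsDiag :=
  Sym2.isDiag_map σ.injective

theorem mem_act (σ : Equiv.Perm (Fin 6)) {e : X} {A : Finset X} :
    Sym2.map σ e ∈ act σ A ↔ e ∈ A := by
  unfold act
  exact (Sym2.map.injective σ.injective).mem_finset_image

theorem map_inv (σ : Equiv.Perm (Fin 6)) (e : X) : Sym2.map σ (Sym2.map σ.symm e) = e := by
  rw [Sym2.map_map]
  simp

theorem act_act (σ τ : Equiv.Perm (Fin 6)) (A : Finset X) : act σ (act τ A) = act (σ * τ) A := by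
  unfold act
  rw [image_image, ← Sym2.map_comp]
  rfl

theorem act_one (A : Finset X) : act 1 A = A := by
  unfold act
  simp

theorem act_insert (σ : Equiv.Perm (Fin 6)) (e : X) (A : Finset X) :
    act σ (insert e A) = insert (Sym2.map σ e) (act σ A) := by
  unfold act
  rw [image_insert]

theorem act_mono (σ : Equiv.Perm (Fin 6)) {A B : Finset X} (h : A ⊆ B) : act σ A ⊆ act σ B :=
  image_subset_image h

theorem ap_testBit (p : ℕ → ℕ) (m k i : ℕ) :
    (ap p m k).testBit i = (decide (i < k) && m.testBit (idx (p (eu i)) (p (ev i)))) := by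
  induction k with
  | zero => simp [ap]
  | succ k ih =>
    unfold ap
    by_cases hik : i = k
    · subst hik
      split_ifs with h
      · simp [Nat.testBit_or, h]
      · rw [ih]; simp [h]
    · have h2 : decide (i < k + 1) = decide (i < k) := by
        apply decide_eq_decide.mpr
        omega
      split_ifs with h
      · rw [Nat.testBit_or, ih, Nat.testBit_two_pow, h2]
        have : decide (k = i) = false := by simpa using fun h' => hik h'.symm
        simp [this]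
      · rw [ih, h2]

theorem V_val {x : ℕ} (hx : x < 6) : (V x : ℕ) = x := by
  unfold V
  simp [Nat.mod_eq_of_lt hx]

theorem dec_ap (σ : Equiv.Perm (Fin 6)) (p : ℕ → ℕ) (hp : ∀ x : Fin 6, p x = σ x) (m : ℕ) :
    dec m = act σ (dec (ap p m 15)) := by
  ext e
  rw [← map_inv σ e, mem_act]
  generalize Sym2.map σ.symm e = e'
  by_cases he : e'.IsDiag
  · constructor
    · intro h; exact absurd ((map_nd σ).mpr he) (dec_nd h)
    · intro h; exact absurd he (dec_nd h)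
  · obtain ⟨i, hi, rfl⟩ := exists_edge he
    obtain ⟨h1, h2, h3⟩ := edge_nd' ⟨i, hi⟩
    simp only at h1 h2 h3
    have hne : σ (V (eu i)) ≠ σ (V (ev i)) := fun h => h1 (σ.injective h)
    obtain ⟨h4, h5⟩ := idx_spec _ _ hne
    have h6 : Sym2.map σ (edge i) = edge (idx (σ (V (eu i))) (σ (V (ev i)))) := by
      rw [h5]; rfl
    rw [h6, mem_dec h4, mem_dec hi, ap_testBit, ← hp, ← hp, V_val h2, V_val h3]
    simp [hi]

theorem perm_of_okP {c : ℕ} (h : okP c = true) :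
    ∃ σ : Equiv.Perm (Fin 6), ∀ x : Fin 6, dig c x = σ x := by
  unfold okP at h
  simp only [List.all_eq_true, List.mem_range, Bool.and_eq_true, decide_eq_true_eq,
    Bool.or_eq_true, Bool.not_eq_true', decide_eq_false_iff_not] at h
  let f : Fin 6 → Fin 6 := fun x => ⟨dig c x, (h x x.2).1⟩
  have hf : Function.Injective f := by
    intro x y hxy
    have h1 : dig c x = dig c y := congrArg Fin.val hxy
    rcases (h x x.2).2 y y.2 with h2 | h2
    · exact Fin.ext h2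
    · exact absurd h1 h2
  exact ⟨Equiv.ofBijective f (Finite.injective_iff_bijective.mp hf), fun x => rfl⟩

theorem sub_dec {g a : ℕ} (h : sub g a = true) : dec g ⊆ dec a := by
  intro e he
  obtain ⟨i, hi, rfl⟩ := exists_edge (dec_nd he)
  rw [mem_dec hi] at he ⊢
  unfold sub at h
  have h1 : g &&& a = g := by simpa using h
  have h2 : (g &&& a).testBit i = true := by rw [h1]; exact he
  rw [Nat.testBit_and] at h2
  exact (Bool.and_eq_true_iff.mp h2).2

theorem sub_of_dec {g a : ℕ} (hg : g < 2 ^ 15) (h : dec g ⊆ dec a) : sub g a = true := by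
  unfold sub
  have : g &&& a = g := by
    apply Nat.eq_of_testBit_eq
    intro i
    rw [Nat.testBit_and]
    by_cases hi : i < 15
    · cases hgi : g.testBit i with
      | false => simp
      | true =>
        have := (mem_dec hi).mp (h ((mem_dec hi).mpr hgi))
        simp [this]
    · have : g.testBit i = false :=
        Nat.testBit_lt_two_pow (lt_of_lt_of_le hg (Nat.pow_le_pow_right (by norm_num) (by omega)))
      simp [this]
  simp [this]

/-- The lines: all copies of the listed graphs. -/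
def Lines : Set (Finset X) := {ℓ | ∃ σ : Equiv.Perm (Fin 6), ∃ g ∈ gens, ℓ = act σ (dec g)}

def Lose (A : Finset X) : Prop := ∃ ℓ ∈ Lines, ℓ ⊆ A

theorem lines_act (σ : Equiv.Perm (Fin 6)) {ℓ : Finset X} (h : ℓ ∈ Lines) : act σ ℓ ∈ Lines := by
  obtain ⟨τ, g, hg, rfl⟩ := h
  exact ⟨σ * τ, g, hg, act_act _ _ _⟩

theorem lose_act (σ : Equiv.Perm (Fin 6)) {A : Finset X} (h : Lose A) : Lose (act σ A) := by
  obtain ⟨ℓ, h1, h2⟩ := h
  exact ⟨act σ ℓ, lines_act σ h1, act_mono σ h2⟩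

theorem lose_of_act (σ : Equiv.Perm (Fin 6)) {A : Finset X} (h : Lose (act σ A)) : Lose A := by
  have := lose_act σ⁻¹ h
  rwa [act_act, inv_mul_cancel, act_one] at this

theorem safe_rep {A : ℕ} (hA : A ∈ reps) : ¬ Lose (dec A) := by
  rintro ⟨ℓ, ⟨σ, g, hg, rfl⟩, hsub⟩
  have h0 := List.all_eq_true.mp safe_ok A hA
  have hg15 : g < 2 ^ 15 := by simpa using List.all_eq_true.mp gens_lt g hg
  have hp : ∀ x : Fin 6, six (σ 0) (σ 1) (σ 2) (σ 3) (σ 4) (σ 5) x = σ x := by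
    intro x
    fin_cases x <;> rfl
  rw [dec_ap σ _ hp A] at hsub
  have h1 := act_mono σ⁻¹ hsub
  rw [act_act, act_act, inv_mul_cancel, act_one, act_one] at h1
  have h2 := sub_of_dec hg15 h1
  unfold safeChk at h0
  simp only [List.all_eq_true, List.mem_range, Bool.or_eq_true, decide_eq_true_eq,
    Bool.not_eq_true'] at h0
  have ne : ∀ x y : Fin 6, x ≠ y → ¬ ((σ x : ℕ) = σ y) := fun x y hxy h =>
    hxy (σ.injective (Fin.ext h))
  have h3 := ((((((h0 _ (σ 0).2 _ (σ 1).2).resolve_left (ne _ _ (by decide)) _ (σ 2).2).resolve_left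
    (by rintro (h | h) <;> exact ne _ _ (by decide) h) _ (σ 3).2).resolve_left
    (by rintro ((h | h) | h) <;> exact ne _ _ (by decide) h) _ (σ 4).2).resolve_left
    (by rintro (((h | h) | h) | h) <;> exact ne _ _ (by decide) h) _ (σ 5).2).resolve_left
    (by rintro ((((h | h) | h) | h) | h) <;> exact ne _ _ (by decide) h)) g hg
  rw [h2] at h3
  exact absurd h3 (by simp)

theorem allChk_mem : ∀ (l : List (ℕ × ℕ)) (w : List ℕ), allChk l w = true → ∀ s ∈ l,
    ∃ v, rowChk s v = true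
  | [], _, _, s, hs => absurd hs (by simp)
  | _ :: _, [], h, _, _ => absurd h (by simp [allChk])
  | t :: l, v :: w, h, s, hs => by
    unfold allChk at h
    rw [Bool.and_eq_true] at h
    rcases List.mem_cons.mp hs with rfl | hs
    · exact ⟨v, h.1⟩
    · exact allChk_mem l w h.2 s hs

/-- Winning positions with the second player to move. -/
def W2 : Set (Finset X × Finset X) :=
  {p | ∃ σ : Equiv.Perm (Fin 6), ∃ s ∈ states, p = (act σ (dec s.1), act σ (dec s.2))}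

theorem W2_act (σ : Equiv.Perm (Fin 6)) {A B : Finset X} (h : (A, B) ∈ W2) :
    (act σ A, act σ B) ∈ W2 := by
  obtain ⟨τ, s, hs, h⟩ := h
  rw [Prod.mk.injEq] at h
  obtain ⟨rfl, rfl⟩ := h
  exact ⟨σ * τ, s, hs, by rw [act_act, act_act]⟩

theorem state_safe {s : ℕ × ℕ} (hs : s ∈ states) : ¬ Lose (dec s.1) := by
  obtain ⟨v, hv⟩ := allChk_mem _ _ all_ok s hs
  unfold rowChk at hv
  simp only [Bool.and_eq_true, decide_eq_true_eq] at hv
  obtain ⟨⟨⟨⟨h1, h2⟩, h3⟩, -⟩, -⟩ := hv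
  obtain ⟨σ, hσ⟩ := perm_of_okP h2
  rintro ⟨ℓ, h4, h5⟩
  apply safe_rep h1
  rw [dec_ap σ _ hσ]
  exact lose_act σ ⟨ℓ, h4, h5.trans (sub_dec h3)⟩

theorem W2_safe {A B : Finset X} (h : (A, B) ∈ W2) : ¬ Lose A := by
  obtain ⟨τ, s, hs, h⟩ := h
  rw [Prod.mk.injEq] at h
  obtain ⟨rfl, rfl⟩ := h
  exact fun h => state_safe hs (lose_of_act τ h)

theorem state_free {s : ℕ × ℕ} (hs : s ∈ states) :
    ∃ e : X, ¬ e.IsDiag ∧ e ∉ dec s.1 ∧ e ∉ dec s.2 := by
  obtain ⟨v, hv⟩ := allChk_mem _ _ all_ok s hs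
  unfold rowChk at hv
  simp only [Bool.and_eq_true, List.any_eq_true, List.mem_range, Bool.not_eq_true'] at hv
  obtain ⟨⟨-, i, hi, h1, h2⟩, -⟩ := hv
  refine ⟨edge i, edge_nd hi, ?_, ?_⟩
  · rw [mem_dec hi, h1]; simp
  · rw [mem_dec hi, h2]; simp

theorem state_move {s : ℕ × ℕ} (hs : s ∈ states) {e : X} (he : ¬ e.IsDiag) (h1 : e ∉ dec s.1)
    (h2 : e ∉ dec s.2) : Lose (insert e (dec s.2)) ∨ ∃ f : X, ¬ f.IsDiag ∧ f ∉ dec s.1 ∧
      f ∉ insert e (dec s.2) ∧ (insert f (dec s.1), insert e (dec s.2)) ∈ W2 := by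
  obtain ⟨v, hv⟩ := allChk_mem _ _ all_ok s hs
  obtain ⟨i, hi, rfl⟩ := exists_edge he
  rw [mem_dec hi] at h1 h2
  unfold rowChk at hv
  simp only [Bool.and_eq_true, List.all_eq_true, List.mem_range] at hv
  have h3 := hv.2 i hi
  generalize (v >>> (33 + 37 * i)) % 16 = x at h3
  generalize (v >>> (37 + 37 * i)) % 262144 = c at h3
  generalize (v >>> (55 + 37 * i)) % 32768 = y at h3
  unfold moveChk at h3
  rw [Bool.or_eq_true, Bool.or_eq_true, Bool.and_eq_true] at h3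
  obtain ⟨h4, h5⟩ := h3.resolve_left (by rintro (h | h) <;> contradiction)
  obtain ⟨σ, hσ⟩ := perm_of_okP h4
  rw [← dec_or hi]
  split_ifs at h5 with hx
  · left
    rw [Bool.and_eq_true, decide_eq_true_eq] at h5
    rw [dec_ap σ _ hσ]
    exact ⟨act σ (dec y), ⟨σ, y, h5.1, rfl⟩, act_mono σ (sub_dec h5.2)⟩
  · right
    simp only [Bool.and_eq_true, decide_eq_true_eq, Bool.not_eq_true'] at h5
    obtain ⟨⟨⟨⟨h6, h7⟩, h8⟩, h9⟩, h10⟩ := h5
    refine ⟨edge x, edge_nd h6, ?_, ?_, ?_⟩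
    · rw [mem_dec h6, h7]; simp
    · rw [mem_dec h6, h8]; simp
    · rw [← dec_or h6]
      refine ⟨σ, states.getD y (0, 0), ?_, ?_⟩
      · rw [List.getD_eq_getElem _ _ h9]
        exact List.getElem_mem h9
      · rw [h10, ← dec_ap σ _ hσ, ← dec_ap σ _ hσ]

theorem W2_free {A B : Finset X} (h : (A, B) ∈ W2) : ∃ e : X, ¬ e.IsDiag ∧ e ∉ A ∧ e ∉ B := by
  obtain ⟨τ, s, hs, h⟩ := h
  rw [Prod.mk.injEq] at h
  obtain ⟨rfl, rfl⟩ := h
  obtain ⟨e, h1, h2, h3⟩ := state_free hs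
  exact ⟨Sym2.map τ e, by rwa [map_nd], by rwa [mem_act], by rwa [mem_act]⟩

theorem W2_move {A B : Finset X} (h : (A, B) ∈ W2) {e : X} (he : ¬ e.IsDiag) (h1 : e ∉ A)
    (h2 : e ∉ B) : Lose (insert e B) ∨ ∃ f : X, ¬ f.IsDiag ∧ f ∉ A ∧
      f ∉ insert e B ∧ (insert f A, insert e B) ∈ W2 := by
  obtain ⟨τ, s, hs, h⟩ := h
  rw [Prod.mk.injEq] at h
  obtain ⟨rfl, rfl⟩ := h
  rw [← map_inv τ e] at he h1 h2 ⊢
  generalize Sym2.map τ.symm e = e' at he h1 h2 ⊢
  rw [map_nd] at he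
  rw [mem_act] at h1 h2
  rw [← act_insert]
  rcases state_move hs he h1 h2 with h | ⟨f, h3, h4, h5, h6⟩
  · exact Or.inl (lose_act τ h)
  · refine Or.inr ⟨Sym2.map τ f, by rwa [map_nd], by rwa [mem_act], by rwa [mem_act], ?_⟩
    rw [← act_insert]
    exact W2_act τ h6

theorem lines_ok {ℓ : Finset X} (h : ℓ ∈ Lines) : ℓ.Nonempty ∧ ∀ x ∈ ℓ, ¬ x.IsDiag := by
  obtain ⟨σ, g, hg, rfl⟩ := h
  constructor
  · have h1 := List.all_eq_true.mp gens_ok g hg
    simp only [List.any_eq_true, List.mem_range] at h1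
    obtain ⟨i, hi, h2⟩ := h1
    exact ⟨Sym2.map σ (edge i), (mem_act σ).mpr ((mem_dec hi).mpr h2)⟩
  · intro x hx
    rw [← map_inv σ x] at hx ⊢
    rw [mem_act] at hx
    rw [map_nd]
    exact dec_nd hx

def W : Set (Finset X × Finset X) :=
  {p | (p.1.card = p.2.card ∧ ∃ f : X, ¬ f.IsDiag ∧ f ∉ p.1 ∧ f ∉ p.2 ∧ (insert f p.1, p.2) ∈ W2) ∨
    (p.1.card = p.2.card + 1 ∧ p ∈ W2)}

theorem dec_zero : dec 0 = ∅ := by
  unfold dec
  simp

theorem root_W : ((∅ : Finset X), (∅ : Finset X)) ∈ W := by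
  refine Or.inl ⟨rfl, edge 0, edge_nd (by norm_num), by simp, by simp, 1, (1, 0), root_mem, ?_⟩
  rw [act_one, act_one]
  have h := dec_or (m := 0) (i := 0) (by norm_num)
  rw [dec_zero] at h
  simp only [dec_zero]
  rw [← h]
  rfl

theorem main :
  ∃ (n : ℕ) (L : Set (Finset (Sym2 (Fin n)))),
    (∀ ℓ ∈ L, ℓ.Nonempty ∧ ∀ x ∈ ℓ, ¬ x.IsDiag) ∧
    (∀ σ : Equiv.Perm (Fin n), ∀ ℓ ∈ L, ℓ.image (Sym2.map ⇑σ) ∈ L) ∧
    ∃ W : Set (Finset (Sym2 (Fin n)) × Finset (Sym2 (Fin n))),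
      ((∅ : Finset (Sym2 (Fin n))), (∅ : Finset (Sym2 (Fin n)))) ∈ W ∧
      ∀ p ∈ W,
        (p.1.card = p.2.card →
          ∃ e : Sym2 (Fin n), ¬ e.IsDiag ∧ e ∉ p.1 ∧ e ∉ p.2 ∧
            (∀ ℓ ∈ L, ¬ ℓ ⊆ insert e p.1) ∧ (insert e p.1, p.2) ∈ W) ∧
        (p.1.card = p.2.card + 1 →
          (∃ e : Sym2 (Fin n), ¬ e.IsDiag ∧ e ∉ p.1 ∧ e ∉ p.2) ∧
          ∀ e : Sym2 (Fin n), ¬ e.IsDiag → e ∉ p.1 → e ∉ p.2 →
            (∃ ℓ ∈ L, ℓ ⊆ insert e p.2) ∨ (p.1, insert e p.2) ∈ W) := by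
  refine ⟨6, Lines, fun ℓ h => lines_ok h, fun σ ℓ h => lines_act σ h, W, root_W, ?_⟩
  rintro ⟨A, B⟩ (⟨hc, f, h1, h2, h3, h4⟩ | ⟨hc, h⟩)
  · simp only at hc h2 h3 h4 ⊢
    refine ⟨fun _ => ⟨f, h1, h2, h3, fun ℓ hℓ hs => W2_safe h4 ⟨ℓ, hℓ, hs⟩, Or.inr ⟨?_, h4⟩⟩,
      fun h => by omega⟩
    simp only
    rw [card_insert_of_notMem h2, hc]
  · simp only at hc ⊢
    refine ⟨fun h => by omega, fun _ => ⟨W2_free h, fun e he h1 h2 => ?_⟩⟩
    rcases W2_move h he h1 h2 with h3 | ⟨f, h3, h4, h5, h6⟩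
    · exact Or.inl h3
    · refine Or.inr (Or.inl ⟨?_, f, h3, h4, h5, h6⟩)
      simp only
      rw [card_insert_of_notMem h2, hc]

end Pool.Agent.H33Z.Sim
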